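import Pool.Agent.R475.MadB.Step

/-!
# The family
-/

set_option autoImplicit false

namespace Pool.Agent.R475.MadB

open Set Cardinal Pool.Agent.H3R3.Rigid
open Pool.Agent.W910.Hull (countable_Iic mk_Om1)

variable {F : Type} [Field F]

/-- the `t`th member of the family -/
noncomputable def memb (X : Om1 → Submodule F (ℕ →₀ F)) (t : ℕ ⊕ Om1) : Submodule F (ℕ →₀ F) :=
  match t with
  | Sum.inl n => Z n
  | Sum.inr α => X α

open Classical in
/-- the characteristic function -/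
noncomputable def chi (A : Submodule F (ℕ →₀ F)) (e : ℕ →₀ F) : Bool := decide (e ∈ A)

lemma chi_iff (A : Submodule F (ℕ →₀ F)) (e : ℕ →₀ F) : chi A e = true ↔ e ∈ A := by
  simp [chi]

/-- the restriction of an index -/
def emb {δ : Om1} (t : ℕ ⊕ Set.Iio δ) : ℕ ⊕ Om1 := Sum.map id Subtype.val t

lemma spB_iff (X : Om1 → Submodule F (ℕ →₀ F)) (δ : Om1) (t : ℕ ⊕ Set.Iio δ) (e : ℕ →₀ F) :
    e ∈ memb X (emb t) ↔ spB δ (fun α => chi (X α.1)) t e := by
  cases t with
  | inl n => exact Iff.rfl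
  | inr α => exact (chi_iff _ _).symm

lemma bounded_index {δ : Om1} (a0 : Om1) (ha0 : a0 < δ) (en : ℕ → ℕ ⊕ Set.Iio δ) (j : ℕ) :
    ∃ β < δ, ∀ i, i ≤ j → ∀ b, emb (en i) = Sum.inr b → b ≤ β := by
  induction j with
  | zero =>
    cases h : en 0 with
    | inl n =>
      refine ⟨a0, ha0, fun i hi b hb => ?_⟩
      obtain rfl : i = 0 := by omega
      rw [h] at hb
      exact absurd hb (by simp [emb])
    | inr α =>
      refine ⟨α.1, α.2, fun i hi b hb => ?_⟩
      obtain rfl : i = 0 := by omega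
      rw [h] at hb
      have h1 : α.1 = b := Sum.inr.inj hb
      exact h1.ge
  | succ j ih =>
    obtain ⟨β, hβ, hj⟩ := ih
    cases h : en (j + 1) with
    | inl n =>
      refine ⟨β, hβ, fun i hi b hb => ?_⟩
      rcases Nat.lt_or_ge j i with h1 | h1
      · obtain rfl : i = j + 1 := by omega
        rw [h] at hb
        exact absurd hb (by simp [emb])
      · exact hj i h1 b hb
    | inr α =>
      refine ⟨max β α.1, max_lt hβ α.2, fun i hi b hb => ?_⟩
      rcases Nat.lt_or_ge j i with h1 | h1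
      · obtain rfl : i = j + 1 := by omega
        rw [h] at hb
        have h1 : α.1 = b := Sum.inr.inj hb
        exact h1.ge.trans (le_max_right _ _)
      · exact (hj i h1 b hb).trans (le_max_left _ _)

lemma countable_finsets (α : Om1) :
    {s : Finset (ℕ ⊕ Om1) | ∀ t ∈ s, ∀ b, t = Sum.inr b → b ≤ α}.Countable := by
  classical
  let S : Set (ℕ ⊕ Om1) := {t | ∀ b, t = Sum.inr b → b ≤ α}
  have hS : S.Countable := by
    refine ((countable_range (Sum.inl : ℕ → ℕ ⊕ Om1)).union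
      ((countable_Iic α).image Sum.inr)).mono fun t ht => ?_
    cases t with
    | inl n => exact Or.inl ⟨n, rfl⟩
    | inr b => exact Or.inr ⟨b, ht b rfl, rfl⟩
  have : Countable S := hS.to_subtype
  refine (countable_range fun s : Finset S => s.map (Function.Embedding.subtype _)).mono ?_
  intro s hs
  refine ⟨s.subtype (· ∈ S), ?_⟩
  exact Finset.subtype_map_of_mem (p := (· ∈ S)) fun t ht => hs t ht

theorem exists_family [Countable F] (h : Diamond) :
    ∃ (X : Om1 → Submodule F (ℕ →₀ F)) (act : Set Om1), (∀ δ ∈ act, IsBlock (X δ)) ∧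
      (∀ δ ∉ act, X δ = ⊥) ∧ (∀ δ, ∀ n : ℕ, AD (X δ) (Z n)) ∧ (∀ δ, ∀ α < δ, AD (X δ) (X α)) ∧
      ∀ Y : Submodule F (ℕ →₀ F), ¬ FiniteDimensional F Y → (∀ n : ℕ, AD Y (Z n)) →
        (∀ δ, AD Y (X δ)) → False := by
  classical
  obtain ⟨G, hG⟩ := exists_unbounded h
  have hen : ∀ δ : Om1, ∃ e : ℕ → ℕ ⊕ Set.Iio δ, Function.Surjective e := by
    intro δ
    have : Countable (Set.Iio δ) := ((countable_Iic δ).mono Iio_subset_Iic_self).to_subtype
    exact exists_surjective_nat _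
  choose en hen using hen
  have hiv : ∀ δ : Om1, ∃ i : ℕ → ℕ, StrictMono i ∧ ∀ γ, γ < δ → ∀ H : ℕ → ℕ, Monotone H →
      {n | H (H n) < G γ n}.Infinite → {k | H (i k) ≤ i (k + 1)}.Infinite := by
    intro δ
    obtain ⟨i, hi, hi2⟩ := exists_partition (fun e => match en δ e with
      | Sum.inl _ => 0
      | Sum.inr γ => G γ.1)
    refine ⟨i, hi, fun γ hγ H hH hinf => ?_⟩
    obtain ⟨e, he⟩ := hen δ (Sum.inr ⟨γ, hγ⟩)
    refine hi2 e H hH ?_
    simp only [he]
    exact hinf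
  choose iv hiv hiv2 using hiv
  obtain ⟨dec, hdec⟩ := exists_surjective_nat (ℕ →₀ (ℕ →₀ F))
  let p : Par F := ⟨en, hen, iv, hiv, dec, hdec⟩
  obtain ⟨g, hg⟩ := guess h (T := ℕ →₀ F) p.Phi p.measurable_Phi
  obtain ⟨X, hX⟩ := exists_rec (r := fun a b : Om1 => a < b) wellFounded_lt
    (fun δ prev A => p.Step g δ (fun α => chi (prev α.1 α.2)) A)
    (fun δ prev => p.exists_step g δ _)
  refine ⟨X, {δ | (p.J g δ fun α => chi (X α.1)).Infinite}, fun δ hδ => ?_, fun δ hδ => ?_,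
    fun δ n => ?_, fun δ α hα => ?_, fun Y hY hZ hXY => ?_⟩
  · obtain ⟨z, σ, hz, hA, _⟩ := Par.step_block (hX δ) hδ
    exact ⟨z, hz.1, hz.2, hA⟩
  · obtain ⟨c, _, _, h2⟩ := hX δ
    exact h2 hδ
  · exact Par.step_ad (hX δ) (Sum.inl n) (Z n) fun e => Iff.rfl
  · exact Par.step_ad (hX δ) (Sum.inr ⟨α, hα⟩) (X α) fun e => (chi_iff _ _).symm
  · have had : ∀ t, AD Y (memb X t) := by
      intro t
      cases t with
      | inl n => exact hZ n
      | inr α => exact hXY α
    have hsp : ∀ t, Split (memb X t) := by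
      intro t
      cases t with
      | inl n => exact (zv_bseq n).split
      | inr α => exact Par.step_split (hX α)
    -- short intervals with good vectors
    let P : Finset (ℕ ⊕ Om1) → ℕ → ℕ → Prop := fun s m M => ∃ v ∈ Y, v ≠ 0 ∧
      (∀ i ∈ v.support, m ≤ i ∧ i < M) ∧ ∀ t ∈ s, Good (· ∈ memb X t) v
    have hP : ∀ s m, ∃ M, P s m M := by
      intro s m
      obtain ⟨v, hv, hne, hm, hgood⟩ := exists_good hY s (memb X) (fun t _ => hsp t)
        (fun t _ => had t) m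
      refine ⟨v.support.sup id + 1, v, hv, hne, fun i hi => ⟨hm i hi, ?_⟩, hgood⟩
      exact Nat.lt_succ_of_le (Finset.le_sup (f := id) hi)
    let H : Finset (ℕ ⊕ Om1) → ℕ → ℕ := fun s m => Nat.find (hP s m)
    have hH : ∀ s m, P s m (H s m) := fun s m => Nat.find_spec (hP s m)
    have hHmono : ∀ s, Monotone (H s) := by
      intro s m m' hmm
      refine Nat.find_min' _ ?_
      obtain ⟨v, hv, hne, h1, h2⟩ := hH s m'
      exact ⟨v, hv, hne, fun i hi => ⟨hmm.trans (h1 i hi).1, (h1 i hi).2⟩, h2⟩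
    choose γ hγ using fun s => hG (fun n => H s (H s n))
    have hK : ∀ α : Om1, ∃ β, ∀ s : Finset (ℕ ⊕ Om1),
        (∀ t ∈ s, ∀ b, t = Sum.inr b → b ≤ α) → γ s < β := by
      intro α
      obtain ⟨β, hβ⟩ := exists_above ((countable_finsets α).image γ)
      exact ⟨β, fun s hs => hβ _ ⟨s, hs, rfl⟩⟩
    choose K hK using hK
    have hne : Nonempty Om1 := inferInstance
    obtain ⟨δ, ha0, hKδ, hδ⟩ := hg (fun α => chi (X α)) (chi Y) K hne.some
    -- lists
    have hlist : ∀ j, ∃ m, p.Valid δ (fun α => chi (X α.1)) j (p.dec m) ∧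
        InY (chi Y) (p.dec m) := by
      intro j
      let s : Finset (ℕ ⊕ Om1) := (Finset.range (j + 1)).image fun i => emb (en δ i)
      obtain ⟨β, hβ, hβ2⟩ := bounded_index hne.some ha0 (en δ) j
      have h1 : γ s < δ := by
        refine (hK β s ?_).trans (hKδ β hβ)
        intro t ht b hb
        obtain ⟨i, hi, rfl⟩ := Finset.mem_image.1 ht
        exact hβ2 i (by have := Finset.mem_range.1 hi; omega) b hb
      have h2 := hiv2 δ (γ s) h1 (H s) (hHmono s) (hγ s)
      obtain ⟨t, ht, htc⟩ := h2.exists_subset_card_eq (j + 1)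
      have h3 : ∀ k : ℕ, ∃ v : ℕ →₀ F, k ∈ t → v ∈ Y ∧ v ≠ 0 ∧
          (∀ i ∈ v.support, iv δ k ≤ i ∧ i < iv δ (k + 1)) ∧
          ∀ t ∈ s, Good (· ∈ memb X t) v := by
        intro k
        by_cases hk : k ∈ t
        · obtain ⟨v, hv, hne, h4, h5⟩ := hH s (iv δ k)
          have h6 : H s (iv δ k) ≤ iv δ (k + 1) := ht hk
          exact ⟨v, fun _ => ⟨hv, hne, fun i hi => ⟨(h4 i hi).1, (h4 i hi).2.trans_le h6⟩, h5⟩⟩
        · exact ⟨0, fun h => absurd h hk⟩
      choose v hv using h3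
      let l : ℕ →₀ (ℕ →₀ F) := Finsupp.onFinset t (fun k => if k ∈ t then v k else 0) (by
        intro k hk
        by_contra hc
        exact hk (if_neg hc))
      have hl : ∀ k, k ∈ t → l k = v k := by
        intro k hk
        show (if k ∈ t then v k else 0) = v k
        rw [if_pos hk]
      have hls : l.support = t := by
        ext k
        rw [Finsupp.mem_support_iff]
        constructor
        · intro hk
          by_contra hc
          exact hk (if_neg hc)
        · intro hk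
          rw [hl k hk]
          exact (hv k hk).2.1
      obtain ⟨m, hm⟩ := hdec l
      refine ⟨m, ?_, ?_⟩
      · show p.Valid δ (fun α => chi (X α.1)) j (dec m)
        rw [hm]
        refine ⟨by rw [hls, htc], fun k hk => ?_⟩
        rw [hls] at hk
        rw [hl k hk]
        refine ⟨fun i hi w hw hwB => ?_, (hv k hk).2.2.1⟩
        have h4 : emb (en δ i) ∈ s :=
          Finset.mem_image.2 ⟨i, Finset.mem_range.2 (by omega), rfl⟩
        exact (hv k hk).2.2.2 _ h4 w hw ((spB_iff X δ (en δ i) _).2 hwB)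
      · show InY (chi Y) (dec m)
        rw [hm]
        intro k hk
        rw [hls] at hk
        rw [hl k hk, chi_iff]
        exact (hv k hk).1
    refine Par.step_hit (hX δ) Y (chi Y) (fun e => (chi_iff _ _).1) (hδ.mono fun j hj => ?_)
      (hXY δ)
    have hj : sInf {m | p.Valid δ (fun α => chi (X α.1)) j (p.dec m) ∧
        InY (chi Y) (p.dec m)} = g δ j := hj
    have h1 : sInf {m | p.Valid δ (fun α => chi (X α.1)) j (p.dec m) ∧
        InY (chi Y) (p.dec m)} ∈ {m | p.Valid δ (fun α => chi (X α.1)) j (p.dec m) ∧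
        InY (chi Y) (p.dec m)} := Nat.sInf_mem (hlist j)
    rw [hj] at h1
    exact h1

lemma block_infinite {A : Submodule F (ℕ →₀ F)} (h : IsBlock A) : ¬ FiniteDimensional F A := by
  obtain ⟨x, h1, h2, rfl⟩ := h
  exact BSeq.infinite ⟨h1, h2⟩

lemma Z_block (n : ℕ) : IsBlock (Z n : Submodule F (ℕ →₀ F)) :=
  ⟨Zv n, (zv_bseq n).1, (zv_bseq n).2, rfl⟩

/-- a countable infinite almost disjoint family can be extended -/
theorem exists_new {𝒜 : Set (Submodule F (ℕ →₀ F))} (h : IsADFamily 𝒜) (hinf : 𝒜.Infinite)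
    (hc : 𝒜.Countable) : ∃ Y : Submodule F (ℕ →₀ F), ¬ FiniteDimensional F Y ∧
      ∀ A ∈ 𝒜, AD Y A := by
  have : Countable 𝒜 := hc.to_subtype
  have : Infinite 𝒜 := hinf.to_subtype
  obtain ⟨e⟩ := nonempty_equiv_of_countable (α := ℕ) (β := 𝒜)
  obtain ⟨Y, hY, hYA⟩ := not_maximal (fun n => (e n).1) (fun n => h.1 _ (e n).2)
    (fun m n hmn => h.2 _ (e m).2 _ (e n).2 fun heq => hmn (e.injective (Subtype.ext heq)))
  refine ⟨Y, hY, fun A hA => ?_⟩
  have h1 := hYA (e.symm ⟨A, hA⟩)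
  simpa using h1

theorem exists_mad [Countable F] (h : Diamond) :
    ∃ 𝒜 : Set (Submodule F (ℕ →₀ F)), IsMadBlock 𝒜 ∧ IsMadFamily 𝒜 ∧ 𝒜.Infinite ∧
      #𝒜 = ℵ₁ := by
  classical
  obtain ⟨X, act, h1, h2, h3, h4, h5⟩ := exists_family (F := F) h
  let 𝒜 : Set (Submodule F (ℕ →₀ F)) := range Z ∪ X '' act
  have hblock : ∀ A ∈ 𝒜, IsBlock A := by
    rintro _ (⟨n, rfl⟩ | ⟨δ, hδ, rfl⟩)
    · exact Z_block n
    · exact h1 δ hδ
  have had : ∀ A ∈ 𝒜, ∀ B ∈ 𝒜, A ≠ B → AD A B := by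
    rintro _ (⟨m, rfl⟩ | ⟨α, hα, rfl⟩) _ (⟨n, rfl⟩ | ⟨β, hβ, rfl⟩) hne
    · exact Z_ad fun h => hne (by rw [h])
    · exact ad_comm (h3 β m)
    · exact h3 α n
    · rcases lt_trichotomy α β with h | h | h
      · exact ad_comm (h4 β α h)
      · exact absurd (by rw [h]) hne
      · exact h4 α β h
  have hinfd : ∀ A ∈ 𝒜, ¬ FiniteDimensional F A := fun A hA => block_infinite (hblock A hA)
  have hfam : IsADFamily 𝒜 := ⟨hinfd, had⟩
  have hZinj : Function.Injective (Z : ℕ → Submodule F (ℕ →₀ F)) := by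
    intro m n hmn
    by_contra hne
    have h6 := Z_ad (F := F) hne
    rw [hmn] at h6
    unfold AD at h6
    rw [inf_idem] at h6
    exact block_infinite (Z_block n) h6
  have hinf : 𝒜.Infinite := (infinite_range_of_injective hZinj).mono subset_union_left
  have key : ∀ Y : Submodule F (ℕ →₀ F), ¬ FiniteDimensional F Y → (∀ A ∈ 𝒜, AD Y A) →
      False := by
    intro Y hY hYA
    refine h5 Y hY (fun n => hYA _ (Or.inl ⟨n, rfl⟩)) fun δ => ?_
    by_cases hδ : δ ∈ act
    · exact hYA _ (Or.inr ⟨δ, hδ, rfl⟩)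
    · rw [h2 δ hδ]
      exact ad_comm (ad_bot Y)
  have hmax : ∀ ℬ : Set (Submodule F (ℕ →₀ F)), IsADFamily ℬ → 𝒜 ⊆ ℬ → ℬ = 𝒜 := by
    intro ℬ hℬ hsub
    refine Subset.antisymm (fun B hB => ?_) hsub
    by_contra hc
    exact key B (hℬ.1 B hB) fun A hA => hℬ.2 B hB A (hsub hA) fun heq => hc (heq ▸ hA)
  refine ⟨𝒜, ⟨⟨hblock, had⟩, fun ℬ hℬ hsub => hmax ℬ
    ⟨fun B hB => block_infinite (hℬ.1 B hB), hℬ.2⟩ hsub⟩, ⟨hfam, hmax⟩, hinf, ?_⟩
  apply le_antisymm
  · refine (mk_union_le _ _).trans (add_le_of_le (aleph0_le_aleph 1) ?_ ?_)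
    · exact (mk_range_le.trans mk_nat.le).trans (aleph0_le_aleph 1)
    · exact mk_image_le.trans ((mk_set_le _).trans mk_Om1.le)
  · by_contra hc
    rw [not_le] at hc
    have hcount : 𝒜.Countable := by
      rw [← le_aleph0_iff_set_countable]
      have h6 : #𝒜 < Order.succ ℵ₀ := by
        rw [succ_aleph0]
        exact hc
      exact Order.lt_succ_iff.1 h6
    obtain ⟨Y, hY, hYA⟩ := exists_new hfam hinf hcount
    exact key Y hY hYA

theorem aleph_one_le_aVec {𝒜 : Set (Submodule F (ℕ →₀ F))} (h : IsMadFamily 𝒜)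
    (hinf : 𝒜.Infinite) : ℵ₁ ≤ #𝒜 := by
  by_contra hc
  rw [not_le] at hc
  have hcount : 𝒜.Countable := by
    rw [← le_aleph0_iff_set_countable]
    have h6 : #𝒜 < Order.succ ℵ₀ := by
      rw [succ_aleph0]
      exact hc
    exact Order.lt_succ_iff.1 h6
  obtain ⟨Y, hY, hYA⟩ := exists_new h.1 hinf hcount
  have h1 := h.2 (insert Y 𝒜) ⟨?_, ?_⟩ (subset_insert _ _)
  · have h2 : Y ∈ 𝒜 := h1 ▸ mem_insert Y 𝒜
    have h3 := hYA Y h2
    unfold AD at h3
    rw [inf_idem] at h3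
    exact hY h3
  · rintro A (rfl | hA)
    · exact hY
    · exact h.1.1 A hA
  · rintro A (rfl | hA) B (rfl | hB) hne
    · exact absurd rfl hne
    · exact hYA B hB
    · exact ad_comm (hYA A hA)
    · exact h.1.2 A hA B hB hne

end Pool.Agent.R475.MadB
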