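import Pool.Agent.R475.MadB.Defs
import Pool.Agent.W910.Hull.MATools

/-!
# Closed unbounded sets and a convenient form of the parametrized diamond principle
-/

set_option autoImplicit false

namespace Pool.Agent.R475.MadB

open Set Cardinal
open Pool.Agent.W910.Hull (countable_Iic not_countable_univ exists_gt_of_countable mk_Om1)

lemma exists_above {B : Set Om1} (hB : B.Countable) : ∃ a, ∀ b ∈ B, b < a := by
  obtain ⟨a, _, ha⟩ := exists_gt_of_countable not_countable_univ hB
  exact ⟨a, ha⟩

lemma club_closure (a0 : Om1) (K : Om1 → Om1) : IsClub {d | a0 < d ∧ ∀ a < d, K a < d} := by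
  constructor
  · intro a
    have hn : ∀ x : Om1, ∃ y, x < y ∧ ∀ z ≤ x, K z < y := by
      intro x
      obtain ⟨y, hy⟩ := exists_above (((countable_Iic x).image K).union (countable_singleton x))
      exact ⟨y, hy x (Or.inr rfl), fun z hz => hy _ (Or.inl ⟨z, hz, rfl⟩)⟩
    choose nx hnx1 hnx2 using hn
    let s : ℕ → Om1 := fun n => nx^[n] (max a a0)
    have hs : ∀ n, s (n + 1) = nx (s n) := fun n => Function.iterate_succ_apply' nx n _
    obtain ⟨y, hy⟩ := exists_above (countable_range s)
    obtain ⟨d, hd, hmin⟩ := WellFounded.has_min (r := fun a b : Om1 => a < b) wellFounded_lt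
      {d | ∀ n, s n < d} ⟨y, fun n => hy _ ⟨n, rfl⟩⟩
    have h0 : max a a0 < d := hd 0
    refine ⟨d, ⟨(le_max_right _ _).trans_lt h0, fun z hz => ?_⟩, (le_max_left _ _).trans_lt h0⟩
    have h1 : ¬ ∀ n, s n < z := fun h => hmin z h hz
    push Not at h1
    obtain ⟨n, hn⟩ := h1
    have h2 := hnx2 (s n) z hn
    rw [← hs] at h2
    exact h2.trans (hd (n + 1))
  · rintro d ⟨a, ha⟩ h
    refine ⟨?_, fun a ha => ?_⟩
    · obtain ⟨b, hb, _, hbd⟩ := h a ha
      exact hb.1.trans hbd
    · obtain ⟨b, hb, hab, hbd⟩ := h a ha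
      exact (hb.2 a hab).trans hbd

lemma measurable_sInf_nat {X : Type*} [MeasurableSpace X] {P : ℕ → X → Prop}
    (hP : ∀ m, Measurable (P m)) : Measurable fun x => sInf {m | P m x} := by
  refine measurable_to_countable' fun k => ?_
  have h : (fun x => sInf {m | P m x}) ⁻¹' {k} =
      {x | (P k x ∧ ∀ m : ℕ, m < k → ¬ P m x) ∨ (k = 0 ∧ ∀ m : ℕ, ¬ P m x)} := by
    ext x
    simp only [mem_preimage, mem_singleton_iff, mem_ofPred_eq]
    constructor
    · intro h
      by_cases hne : ({m | P m x} : Set ℕ).Nonempty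
      · left
        refine ⟨?_, fun m hm hPm => ?_⟩
        · have h1 := Nat.sInf_mem hne
          rw [h] at h1
          exact h1
        · have h1 : sInf {m | P m x} ≤ m := Nat.sInf_le hPm
          omega
      · right
        have h1 : ({m | P m x} : Set ℕ) = ∅ := not_nonempty_iff_eq_empty.1 hne
        refine ⟨?_, fun m hm => ?_⟩
        · rw [← h, h1, Nat.sInf_empty]
        · exact hne ⟨m, hm⟩
    · rintro (⟨h1, h2⟩ | ⟨rfl, h2⟩)
      · refine le_antisymm (Nat.sInf_le h1) ?_
        by_contra hlt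
        push Not at hlt
        have h3 : sInf {m | P m x} ∈ {m | P m x} := Nat.sInf_mem ⟨k, h1⟩
        exact h2 _ hlt h3
      · have h1 : ({m | P m x} : Set ℕ) = ∅ := by
          ext m
          simp [h2 m]
        rw [h1, Nat.sInf_empty]
  rw [h]
  apply measurableSet_setOf.2
  refine Measurable.or (Measurable.and (hP k) ?_) (Measurable.and measurable_const ?_)
  · refine Measurable.forall fun m => ?_
    exact Measurable.imp measurable_const (hP m).not
  · exact Measurable.forall fun m => (hP m).not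

/-- A convenient form of the principle. -/
theorem guess (h : Diamond) {T : Type} [Countable T]
    (Φ : (δ : Om1) → (Set.Iio δ → T → Bool) × (T → Bool) → ℕ → ℕ) (hΦ : ∀ δ, Measurable (Φ δ)) :
    ∃ g : Om1 → ℕ → ℕ, ∀ (x : Om1 → T → Bool) (y : T → Bool) (K : Om1 → Om1) (a0 : Om1),
      ∃ δ, a0 < δ ∧ (∀ a < δ, K a < δ) ∧
        {n | Φ δ (fun i => x i.1, y) n = g δ n}.Infinite := by
  classical
  obtain ⟨π⟩ : #(Option Om1 × T) ≤ #Om1 := by
    rw [mk_prod, mk_option, lift_id, lift_id, mk_Om1]
    refine mul_le_of_le (aleph0_le_aleph 1) ?_ ((mk_le_aleph0 (α := T)).trans (aleph0_le_aleph 1))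
    exact add_le_of_le (aleph0_le_aleph 1) le_rfl (one_le_aleph0.trans (aleph0_le_aleph 1))
  let dec : (δ : Om1) → (Set.Iio δ → Bool) → Option Om1 × T → Bool := fun δ z p =>
    if hp : π p < δ then z ⟨π p, hp⟩ else false
  have hdec : ∀ δ p, Measurable fun z => dec δ z p := by
    intro δ p
    by_cases hp : π p < δ
    · simp only [dec, dif_pos hp]
      exact measurable_pi_apply _
    · simp only [dec, dif_neg hp]
      exact measurable_const
  let Φ' : (δ : Om1) → (Set.Iio δ → Bool) → (ℕ → ℕ) := fun δ z =>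
    Φ δ (fun α t => dec δ z (some α.1, t), fun t => dec δ z (none, t))
  have hΦ' : ∀ δ, Measurable (Φ' δ) := by
    intro δ
    refine (hΦ δ).comp (Measurable.prodMk ?_ ?_)
    · exact measurable_pi_lambda _ fun α => measurable_pi_lambda _ fun t => hdec δ _
    · exact measurable_pi_lambda _ fun t => hdec δ _
  obtain ⟨g, hg⟩ := h Φ' (fun δ => by
    have : Countable (Set.Iio δ) := ((countable_Iic δ).mono Iio_subset_Iic_self).to_subtype
    have e1 : (MeasurableSpace.pi : MeasurableSpace (Set.Iio δ → Bool)) = borel _ :=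
      BorelSpace.measurable_eq
    have e2 : (MeasurableSpace.pi : MeasurableSpace (ℕ → ℕ)) = borel _ :=
      BorelSpace.measurable_eq
    rw [← e1, ← e2]
    exact hΦ' δ)
  refine ⟨g, fun x y K a0 => ?_⟩
  let val : Option Om1 × T → Bool := fun p => match p.1 with
    | some α => x α p.2
    | none => y p.2
  let f : Om1 → Bool := Function.extend π val (fun _ => false)
  have hf : ∀ p, f (π p) = val p := fun p => π.injective.extend_apply val _ p
  have hK1 : ∀ α : Om1, ∃ β, ∀ t : T, π (some α, t) < β := by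
    intro α
    obtain ⟨β, hβ⟩ := exists_above (countable_range fun t : T => π (some α, t))
    exact ⟨β, fun t => hβ _ ⟨t, rfl⟩⟩
  choose K1 hK1 using hK1
  obtain ⟨b0, hb0⟩ := exists_above (countable_range fun t : T => π (none, t))
  obtain ⟨δ, hδ, h1, h2⟩ := hg f _ (club_closure (max a0 b0) (fun α => max (K α) (K1 α)))
  refine ⟨δ, (le_max_left _ _).trans_lt h1, fun a ha => (le_max_left _ _).trans_lt (h2 a ha), ?_⟩
  have h3 : Φ' δ (fun a => f a.1) = Φ δ (fun i => x i.1, y) := by
    have h4 : ∀ (α : Set.Iio δ) (t : T), dec δ (fun a => f a.1) (some α.1, t) = x α.1 t := by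
      intro α t
      have h5 : π (some α.1, t) < δ :=
        (hK1 α.1 t).trans ((le_max_right _ _).trans_lt (h2 α.1 α.2))
      simp only [dec, dif_pos h5]
      rw [hf]
    have h5 : ∀ t : T, dec δ (fun a => f a.1) (none, t) = y t := by
      intro t
      have h6 : π (none, t) < δ := (hb0 _ ⟨t, rfl⟩).trans ((le_max_right _ _).trans_lt h1)
      simp only [dec, dif_pos h6]
      rw [hf]
    simp only [Φ', h4, h5]
  have hδ' : {n | Φ' δ (fun a => f a.1) n = g δ n}.Infinite := hδ
  rwa [h3] at hδ'

/-- The principle gives an unbounded family of size `ℵ₁`. -/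
theorem exists_unbounded (h : Diamond) :
    ∃ G : Om1 → ℕ → ℕ, ∀ u : ℕ → ℕ, ∃ γ, {n | u n < G γ n}.Infinite := by
  obtain ⟨g, hg⟩ := guess h (T := ℕ × ℕ) (fun δ p n => sInf {m | p.2 (n, m) = true} + 1) (by
    intro δ
    refine measurable_pi_lambda _ fun n => ?_
    refine Measurable.add_const (measurable_sInf_nat fun m => ?_) 1
    have h1 : Measurable fun p : (Set.Iio δ → ℕ × ℕ → Bool) × (ℕ × ℕ → Bool) => p.2 (n, m) :=
      (measurable_pi_apply _).comp measurable_snd
    exact (measurable_of_countable (fun b : Bool => b = true)).comp h1)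
  refine ⟨g, fun u => ?_⟩
  have hne : Nonempty Om1 := inferInstance
  obtain ⟨δ, _, _, hδ⟩ := hg (fun _ _ => false) (fun p => decide (p.2 = u p.1)) id hne.some
  refine ⟨δ, hδ.mono fun n hn => ?_⟩
  have hn : sInf {m | decide (m = u n) = true} + 1 = g δ n := hn
  have h1 : ({m | decide (m = u n) = true} : Set ℕ) = {u n} := by
    ext m
    simp
  rw [h1, csInf_singleton] at hn
  show u n < g δ n
  omega

/-- A partition into intervals which is good for countably many functions. -/
theorem exists_partition (G : ℕ → ℕ → ℕ) : ∃ i : ℕ → ℕ, StrictMono i ∧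
    ∀ e, ∀ H : ℕ → ℕ, Monotone H → {n | H (H n) < G e n}.Infinite →
      {k | H (i k) ≤ i (k + 1)}.Infinite := by
  let h : ℕ → ℕ := fun n =>
    n + 1 + ∑ m ∈ Finset.range (n + 1), ∑ e ∈ Finset.range (m + 1), G e m
  have hmono : Monotone h := by
    refine monotone_nat_of_le_succ fun n => ?_
    simp only [h]
    rw [Finset.sum_range_succ (n := n + 1)]
    omega
  have hgt : ∀ n, n < h n := by
    intro n
    simp only [h]
    omega
  have hG : ∀ e n, e ≤ n → G e n ≤ h n := by
    intro e n hen
    have h1 : G e n ≤ ∑ e ∈ Finset.range (n + 1), G e n :=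
      Finset.single_le_sum (f := fun e => G e n) (fun _ _ => Nat.zero_le _)
        (Finset.mem_range.2 (Nat.lt_succ_of_le hen))
    have h2 : ∑ e ∈ Finset.range (n + 1), G e n ≤
        ∑ m ∈ Finset.range (n + 1), ∑ e ∈ Finset.range (m + 1), G e m :=
      Finset.single_le_sum (f := fun m => ∑ e ∈ Finset.range (m + 1), G e m)
        (fun _ _ => Nat.zero_le _) (Finset.mem_range.2 (Nat.lt_succ_self n))
    simp only [h]
    omega
  let i : ℕ → ℕ := fun k => h^[k] 0
  have hi : ∀ k, i (k + 1) = h (i k) := fun k => Function.iterate_succ_apply' h k 0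
  have hsm : StrictMono i := strictMono_nat_of_lt_succ fun k => by
    rw [hi]; exact hgt _
  refine ⟨i, hsm, fun e H hH hinf => ?_⟩
  by_contra hfin
  rw [Set.not_infinite] at hfin
  obtain ⟨K, hK⟩ := hfin.bddAbove
  obtain ⟨n, hn, hnK⟩ := hinf.exists_gt (max e (i (K + 1)))
  have hn' : H (H n) < G e n := hn
  have h1 : ∃ k, n < i k := ⟨n + 1, Nat.lt_of_lt_of_le (Nat.lt_succ_self n) hsm.le_apply⟩
  classical
  obtain ⟨k, hk⟩ : ∃ k, Nat.find h1 = k + 1 := by
    refine Nat.exists_eq_succ_of_ne_zero fun h0 => ?_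
    have h2 := Nat.find_spec h1
    rw [h0] at h2
    exact absurd h2 (Nat.not_lt_zero _)
  have hk1 : n < i (k + 1) := hk ▸ Nat.find_spec h1
  have hk2 : i k ≤ n := by
    have h2 := Nat.find_min h1 (m := k) (by omega)
    omega
  have hKk : K < k := by
    by_contra hc
    have h2 : i (k + 1) ≤ i (K + 1) := hsm.monotone (by omega)
    have h3 : i (K + 1) < n := (le_max_right _ _).trans_lt hnK
    omega
  have h4 : ∀ l, K < l → i (l + 1) < H (i l) := by
    intro l hl
    by_contra hc
    have : l ≤ K := hK (show l ∈ {k | H (i k) ≤ i (k + 1)} from not_lt.1 hc)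
    omega
  have h5 : i (k + 2) < H (i (k + 1)) := h4 (k + 1) (by omega)
  have h6 : H (i (k + 1)) ≤ H (H n) := hH ((h4 k hKk).le.trans (hH hk2))
  have h7 : h n ≤ i (k + 2) := by
    rw [show k + 2 = (k + 1) + 1 from rfl, hi]
    exact hmono hk1.le
  have h8 : G e n ≤ h n := hG e n ((le_max_left _ _).trans hnK.le)
  omega

end Pool.Agent.R475.MadB
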