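import Pool.Agent.R475.MadB.Vec
import Pool.Agent.H3R3.Rigid.Rec

/-!
# Countable families of subspaces are not maximal
-/

set_option autoImplicit false

namespace Pool.Agent.R475.MadB

open Set Pool.Agent.H3R3.Rigid

variable {F : Type} [Field F]

lemma exists_avoid {B : Submodule F (ℕ →₀ F)} (hB : ¬ FiniteDimensional F B) (N : ℕ)
    {ι : Type} (s : Finset ι) (W : ι → Submodule F (ℕ →₀ F))
    (hW : ∀ t ∈ s, FiniteDimensional F ↥(W t ⊓ B)) :
    ∃ v ∈ B, v ≠ 0 ∧ (∀ i ∈ v.support, N ≤ i) ∧ ∀ t ∈ s, v ∉ W t := by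
  classical
  have h1 : ∀ t : ι, ∃ M, t ∈ s → Bdd (W t ⊓ B) M := by
    intro t
    by_cases ht : t ∈ s
    · obtain ⟨M, hM⟩ := bdd_of_finite (hW t ht)
      exact ⟨M, fun _ => hM⟩
    · exact ⟨0, fun h => absurd h ht⟩
  choose M hM using h1
  obtain ⟨v, hv, hne, hvN⟩ := exists_high hB (max N (s.sup M))
  refine ⟨v, hv, hne, fun i hi => (le_max_left _ _).trans (hvN i hi), fun t ht hvt => ?_⟩
  obtain ⟨k, hk⟩ := Finsupp.support_nonempty_iff.2 hne
  have h4 := hM t ht v ⟨hvt, hv⟩ k hk
  have h5 := hvN k hk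
  have h6 : M t ≤ s.sup M := Finset.le_sup ht
  omega

/-- (3) a countably infinite almost disjoint family is not maximal -/
theorem not_maximal (A : ℕ → Submodule F (ℕ →₀ F)) (hA : ∀ n, ¬ FiniteDimensional F (A n))
    (had : ∀ m n, m ≠ n → AD (A m) (A n)) :
    ∃ Y : Submodule F (ℕ →₀ F), ¬ FiniteDimensional F Y ∧ ∀ n, AD Y (A n) := by
  classical
  let U : (j : ℕ) → (∀ m, m < j → (ℕ →₀ F)) → Submodule F (ℕ →₀ F) := fun j g =>
    Submodule.span F (range fun m : Fin j => g m.1 m.2)
  let Q : (j : ℕ) → (∀ m, m < j → (ℕ →₀ F)) → (ℕ →₀ F) → Prop := fun j g v =>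
    v ≠ 0 ∧ (∀ i ∈ v.support, j ≤ i) ∧ ∀ t ∈ Finset.range (j + 1), v ∉ A t ⊔ U j g
  have hQ : ∀ j g, ∃ v, Q j g v := by
    intro j g
    have hU : FiniteDimensional F (U j g) :=
      FiniteDimensional.span_of_finite F (finite_range _)
    obtain ⟨v, hv, h1, h2, h3⟩ := exists_avoid (hA (j + 1)) j (Finset.range (j + 1))
      (fun t => A t ⊔ U j g) (fun t ht => finite_sup_inf hU (had (j + 1) t (by
        have := Finset.mem_range.1 ht
        omega)))
    exact ⟨v, h1, h2, h3⟩
  obtain ⟨v, hv⟩ := exists_rec (r := fun a b : ℕ => a < b) wellFounded_lt Q hQ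
  refine ⟨Submodule.span F (range v), ?_, fun n => ?_⟩
  · intro hf
    obtain ⟨M, hM⟩ := bdd_of_finite hf
    obtain ⟨i, hi⟩ := Finsupp.support_nonempty_iff.2 (hv M).1
    have h1 := hM (v M) (Submodule.subset_span ⟨M, rfl⟩) i hi
    have h2 := (hv M).2.1 i hi
    omega
  · have hU : FiniteDimensional F (U n fun m _ => v m) :=
      FiniteDimensional.span_of_finite F (finite_range _)
    have hle : Submodule.span F (range v) ⊓ A n ≤ U n fun m _ => v m := by
      rintro y ⟨hy1, hy2⟩
      obtain ⟨a, ha⟩ := mem_span_iff.1 hy1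
      rcases eq_or_ne a 0 with rfl | hane
      · have h1 : y = 0 := by
          rw [← ha]; simp [lc]
        rw [h1]
        exact Submodule.zero_mem _
      have hane := Finsupp.support_nonempty_iff.2 hane
      let l := a.support.max' hane
      have hl : l ∈ a.support := Finset.max'_mem _ _
      have hmax : ∀ m ∈ a.support, m ≤ l := fun m hm => Finset.le_max' _ _ hm
      have hal : a l ≠ 0 := Finsupp.mem_support_iff.1 hl
      have hdec : lc v (a.erase l) + a l • v l = y := by
        rw [← ha]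
        have h1 : a = a.erase l + Finsupp.single l (a l) := by
          rw [add_comm, Finsupp.single_add_erase]
        conv_rhs => rw [h1, lc_add]
        congr 1
        simp [lc, Finsupp.sum_single_index]
      have hsmall : ∀ (k : ℕ) (b : ℕ →₀ F), (∀ m ∈ b.support, m < k) →
          lc v b ∈ U k fun m _ => v m := by
        intro k b hb
        unfold lc
        refine Submodule.sum_mem _ fun m hm => Submodule.smul_mem _ _ ?_
        exact Submodule.subset_span ⟨⟨m, hb m hm⟩, rfl⟩
      have hln : l < n := by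
        by_contra hc
        push Not at hc
        apply (hv l).2.2 n (Finset.mem_range.2 (by omega))
        have h1 : v l = (a l)⁻¹ • y + (-(a l)⁻¹) • lc v (a.erase l) := by
          rw [← hdec, smul_add, smul_smul, inv_mul_cancel₀ hal, one_smul, neg_smul]
          abel
        rw [h1]
        refine Submodule.add_mem_sup (Submodule.smul_mem _ _ hy2) (Submodule.smul_mem _ _ ?_)
        refine hsmall l _ fun m hm => ?_
        rw [Finsupp.support_erase, Finset.mem_erase] at hm
        exact lt_of_le_of_ne (hmax m hm.2) hm.1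
      rw [← ha]
      exact hsmall n a fun m hm => (hmax m hm).trans_lt hln
    exact Submodule.finiteDimensional_of_le hle

end Pool.Agent.R475.MadB
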