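import Mathlib

/-!
# The parametrized diamond principle and almost disjoint families of subspaces
-/

set_option autoImplicit false

namespace Pool.Agent.R475.MadB

open Cardinal

/-- the well-ordered set `ω₁` of the countable ordinals -/
abbrev Om1 : Type := (ℵ₁ : Cardinal.{0}).ord.ToType

/-- `C` is a closed unbounded subset of `ω₁`. -/
def IsClub (C : Set Om1) : Prop :=
  (∀ a, ∃ b ∈ C, a < b) ∧
    ∀ d, (∃ a, a < d) → (∀ a < d, ∃ b ∈ C, a < b ∧ b < d) → d ∈ C

/-- `S` is a stationary subset of `ω₁`. -/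
def IsStationary (S : Set Om1) : Prop := ∀ C, IsClub C → (S ∩ C).Nonempty

/-- The parametrized diamond principle `♢(ω^ω, =^∞)`: for every map `Φ` from the binary sequences
of countable length to the Baire space whose restriction to the sequences of length `δ` is Borel
for all `δ` there is a sequence `g` of elements of the Baire space such that for every binary
sequence `f` of length `ω₁` the value `Φ (f ↾ δ)` agrees with `g δ` infinitely often for
stationarily many `δ`. -/
def Diamond : Prop :=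
  ∀ Φ : (δ : Om1) → (Set.Iio δ → Bool) → (ℕ → ℕ),
    (∀ δ, @Measurable _ _ (borel (Set.Iio δ → Bool)) (borel (ℕ → ℕ)) (Φ δ)) →
    ∃ g : Om1 → (ℕ → ℕ), ∀ f : Om1 → Bool,
      IsStationary {δ | {n | Φ δ (fun a => f a.1) n = g δ n}.Infinite}

section Spaces

variable {F : Type} [Field F]

/-- `A` is a block subspace: the span of an infinite sequence of nonzero vectors `x 0 < x 1 < ⋯`,
where `x < y` means that all the elements of the support of `x` are smaller than all the elements
of the support of `y`. -/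
def IsBlock (A : Submodule F (ℕ →₀ F)) : Prop :=
  ∃ x : ℕ → (ℕ →₀ F), (∀ n, x n ≠ 0) ∧
    (∀ n, ∀ i ∈ (x n).support, ∀ k ∈ (x (n + 1)).support, i < k) ∧
    A = Submodule.span F (Set.range x)

/-- `A` and `B` are almost disjoint: their intersection has finite dimension. -/
def AD (A B : Submodule F (ℕ →₀ F)) : Prop := FiniteDimensional F ↥(A ⊓ B)

/-- a family of pairwise almost disjoint block subspaces -/
def IsADBlock (𝒜 : Set (Submodule F (ℕ →₀ F))) : Prop :=
  (∀ A ∈ 𝒜, IsBlock A) ∧ ∀ A ∈ 𝒜, ∀ B ∈ 𝒜, A ≠ B → AD A B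

/-- a family of pairwise almost disjoint subspaces of infinite dimension -/
def IsADFamily (𝒜 : Set (Submodule F (ℕ →₀ F))) : Prop :=
  (∀ A ∈ 𝒜, ¬ FiniteDimensional F A) ∧ ∀ A ∈ 𝒜, ∀ B ∈ 𝒜, A ≠ B → AD A B

/-- a mad family of block subspaces -/
def IsMadBlock (𝒜 : Set (Submodule F (ℕ →₀ F))) : Prop :=
  IsADBlock 𝒜 ∧ ∀ ℬ : Set (Submodule F (ℕ →₀ F)), IsADBlock ℬ → 𝒜 ⊆ ℬ → ℬ = 𝒜

/-- a mad family of subspaces -/
def IsMadFamily (𝒜 : Set (Submodule F (ℕ →₀ F))) : Prop :=
  IsADFamily 𝒜 ∧ ∀ ℬ : Set (Submodule F (ℕ →₀ F)), IsADFamily ℬ → 𝒜 ⊆ ℬ → ℬ = 𝒜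

end Spaces

/-- the least cardinality of an infinite mad family of subspaces -/
noncomputable def aVec (F : Type) [Field F] : Cardinal.{0} :=
  sInf {κ | ∃ 𝒜 : Set (Submodule F (ℕ →₀ F)), IsMadFamily 𝒜 ∧ 𝒜.Infinite ∧ #𝒜 = κ}

end Pool.Agent.R475.MadB
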