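import Pool.Agent.R475.MadB.Club
import Pool.Agent.R475.MadB.Count

/-!
# One step of the construction
-/

set_option autoImplicit false

namespace Pool.Agent.R475.MadB

open Set Cardinal Pool.Agent.H3R3.Rigid

variable {F : Type} [Field F]

/-- unit vectors, in countably many sequences -/
noncomputable def Zv (n m : ℕ) : ℕ →₀ F := Finsupp.single (Nat.pair n m) 1

/-- subspaces spanned by unit vectors -/
noncomputable def Z (n : ℕ) : Submodule F (ℕ →₀ F) := Submodule.span F (range (Zv n))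

lemma zv_support (n m : ℕ) : (Zv n m : ℕ →₀ F).support = {Nat.pair n m} :=
  Finsupp.support_single _ one_ne_zero

lemma zv_bseq (n : ℕ) : BSeq (Zv n : ℕ → (ℕ →₀ F)) := by
  refine ⟨fun m => ?_, fun m i hi k hk => ?_⟩
  · rw [← Finsupp.support_nonempty_iff, zv_support]
    exact Finset.singleton_nonempty _
  · rw [zv_support, Finset.mem_singleton] at hi hk
    rw [hi, hk]
    exact Nat.pair_lt_pair_right n (Nat.lt_succ_self m)

lemma mem_Z {n : ℕ} {y : ℕ →₀ F} (hy : y ∈ Z n) : ∀ i ∈ y.support, (Nat.unpair i).1 = n := by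
  obtain ⟨a, rfl⟩ := mem_span_iff.1 hy
  intro i hi
  obtain ⟨m, _, hm⟩ := (zv_bseq n).mem_support.1 hi
  rw [zv_support, Finset.mem_singleton] at hm
  rw [hm, Nat.unpair_pair]

lemma Z_ad {m n : ℕ} (h : m ≠ n) : AD (Z m : Submodule F (ℕ →₀ F)) (Z n) := by
  refine finite_of_bdd (M := 0) ?_
  rintro y ⟨h1, h2⟩ i hi
  exact absurd ((mem_Z h1 i hi).symm.trans (mem_Z h2 i hi)) h

lemma ad_comm {A B : Submodule F (ℕ →₀ F)} (h : AD A B) : AD B A := by
  unfold AD at h ⊢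
  rw [inf_comm]
  exact h

lemma ad_bot (A : Submodule F (ℕ →₀ F)) : AD ⊥ A := by
  refine finite_of_bdd (M := 0) ?_
  rintro y ⟨h1, _⟩ i hi
  rw [SetLike.mem_coe, Submodule.mem_bot] at h1
  rw [h1] at hi
  simp at hi

/-- the parameters of the construction -/
structure Par (F : Type) [Field F] where
  en : ∀ δ : Om1, ℕ → ℕ ⊕ Set.Iio δ
  hen : ∀ δ, Function.Surjective (en δ)
  iv : Om1 → ℕ → ℕ
  hiv : ∀ δ, StrictMono (iv δ)
  dec : ℕ → (ℕ →₀ (ℕ →₀ F))
  hdec : Function.Surjective dec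

/-- the required sets -/
def spB (δ : Om1) (x : Set.Iio δ → (ℕ →₀ F) → Bool) (t : ℕ ⊕ Set.Iio δ) (e : ℕ →₀ F) : Prop :=
  match t with
  | Sum.inl n => e ∈ (Z n : Submodule F (ℕ →₀ F))
  | Sum.inr α => x α e = true

/-- valid finite sequences of vectors -/
def Par.Valid (p : Par F) (δ : Om1) (x : Set.Iio δ → (ℕ →₀ F) → Bool) (j : ℕ)
    (l : ℕ →₀ (ℕ →₀ F)) : Prop :=
  j + 1 ≤ l.support.card ∧ ∀ k, k ∈ l.support →
    (∀ i, i ≤ j → Good (spB δ x (p.en δ i)) (l k)) ∧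
      ∀ n ∈ (l k).support, p.iv δ k ≤ n ∧ n < p.iv δ (k + 1)

/-- all vectors are in `y` -/
def InY (y : (ℕ →₀ F) → Bool) (l : ℕ →₀ (ℕ →₀ F)) : Prop := ∀ k, k ∈ l.support → y (l k) = true

lemma measurable_eq_true {X : Type*} [MeasurableSpace X] {f : X → Bool} (hf : Measurable f) :
    Measurable fun x => f x = true :=
  (measurable_of_countable (fun b : Bool => b = true)).comp hf

lemma Par.measurable_valid [Countable F] (p : Par F) (δ : Om1) (j : ℕ) (l : ℕ →₀ (ℕ →₀ F)) :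
    Measurable fun q : (Set.Iio δ → (ℕ →₀ F) → Bool) × ((ℕ →₀ F) → Bool) =>
      p.Valid δ q.1 j l ∧ InY q.2 l := by
  refine Measurable.and (Measurable.and measurable_const ?_) ?_
  · refine Measurable.forall fun k => Measurable.imp measurable_const (Measurable.and ?_
      measurable_const)
    refine Measurable.forall fun i => Measurable.imp measurable_const ?_
    refine Measurable.forall fun w => Measurable.imp measurable_const (Measurable.not ?_)
    unfold spB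
    cases p.en δ i with
    | inl n => exact measurable_const
    | inr α =>
      refine measurable_eq_true ?_
      exact (measurable_pi_apply (w + l k)).comp ((measurable_pi_apply α).comp measurable_fst)
  · refine Measurable.forall fun k => Measurable.imp measurable_const ?_
    exact measurable_eq_true ((measurable_pi_apply (l k)).comp measurable_snd)

/-- the least code of a good guess -/
noncomputable def Par.Phi (p : Par F) (δ : Om1)
    (q : (Set.Iio δ → (ℕ →₀ F) → Bool) × ((ℕ →₀ F) → Bool)) (j : ℕ) : ℕ :=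
  sInf {m | p.Valid δ q.1 j (p.dec m) ∧ InY q.2 (p.dec m)}

lemma Par.measurable_Phi [Countable F] (p : Par F) (δ : Om1) : Measurable (p.Phi δ) :=
  measurable_pi_lambda _ fun j => measurable_sInf_nat fun m => p.measurable_valid δ j (p.dec m)

/-- the valid stages -/
def Par.J (p : Par F) (g : Om1 → ℕ → ℕ) (δ : Om1) (x : Set.Iio δ → (ℕ →₀ F) → Bool) : Set ℕ :=
  {j | p.Valid δ x j (p.dec (g δ j))}

/-- one step -/
def Par.Step (p : Par F) (g : Om1 → ℕ → ℕ) (δ : Om1) (x : Set.Iio δ → (ℕ →₀ F) → Bool)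
    (A : Submodule F (ℕ →₀ F)) : Prop :=
  ∃ c : ℕ → ℕ, (∀ j ∈ p.J g δ x, c j ∈ (p.dec (g δ j)).support ∧ ∀ i < j, c i ≠ c j) ∧
    ((p.J g δ x).Infinite → A = Submodule.span F ((fun j => p.dec (g δ j) (c j)) '' p.J g δ x)) ∧
    (¬ (p.J g δ x).Infinite → A = ⊥)

lemma Par.exists_step (p : Par F) (g : Om1 → ℕ → ℕ) (δ : Om1)
    (x : Set.Iio δ → (ℕ →₀ F) → Bool) : ∃ A, p.Step g δ x A := by
  classical
  let Q : (j : ℕ) → (∀ i, i < j → ℕ) → ℕ → Prop := fun j prev c =>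
    j ∈ p.J g δ x → c ∈ (p.dec (g δ j)).support ∧ ∀ i (hi : i < j), prev i hi ≠ c
  have hQ : ∀ j prev, ∃ c, Q j prev c := by
    intro j prev
    by_cases hj : j ∈ p.J g δ x
    · have hj' : p.Valid δ x j (p.dec (g δ j)) := hj
      have h1 : (Finset.univ.image fun i : Fin j => prev i.1 i.2).card <
          (p.dec (g δ j)).support.card := by
        refine lt_of_le_of_lt Finset.card_image_le ?_
        rw [Finset.card_univ, Fintype.card_fin]
        exact hj'.1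
      obtain ⟨c, hc1, hc2⟩ := Finset.exists_mem_notMem_of_card_lt_card h1
      refine ⟨c, fun _ => ⟨hc1, fun i hi h => hc2 ?_⟩⟩
      exact Finset.mem_image.2 ⟨⟨i, hi⟩, Finset.mem_univ _, h⟩
    · exact ⟨0, fun h => absurd h hj⟩
  obtain ⟨c, hc⟩ := exists_rec (r := fun a b : ℕ => a < b) wellFounded_lt Q hQ
  by_cases hinf : (p.J g δ x).Infinite
  · exact ⟨_, c, hc, fun _ => rfl, fun h => absurd hinf h⟩
  · exact ⟨⊥, c, hc, fun h => absurd h hinf, fun _ => rfl⟩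

lemma arrange {J : Set ℕ} (hJ : J.Infinite) (c : ℕ → ℕ) (hc : InjOn c J)
    (v : ℕ → (ℕ →₀ F)) (hv : ∀ j ∈ J, v j ≠ 0) (iv : ℕ → ℕ) (hiv : StrictMono iv)
    (hs : ∀ j ∈ J, ∀ n ∈ (v j).support, iv (c j) ≤ n ∧ n < iv (c j + 1)) :
    ∃ σ : ℕ → ℕ, Function.Injective σ ∧ range σ = J ∧ BSeq (fun n => v (σ n)) := by
  classical
  have hK : (c '' J).Infinite := hJ.image hc
  have h1 : ∀ n, ∃ j ∈ J, c j = Nat.nth (· ∈ c '' J) n := fun n => Nat.nth_mem_of_infinite hK n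
  choose σ hσJ hσ using h1
  have hmono : StrictMono (Nat.nth (· ∈ c '' J)) := Nat.nth_strictMono hK
  refine ⟨σ, fun m n hmn => ?_, ?_, fun n => hv _ (hσJ n), fun n i hi k hk => ?_⟩
  · apply hmono.injective
    rw [← hσ m, ← hσ n, hmn]
  · ext j
    constructor
    · rintro ⟨n, rfl⟩
      exact hσJ n
    · intro hj
      have h2 : c j ∈ range (Nat.nth (· ∈ c '' J)) := by
        have h3 := Nat.range_nth_of_infinite (p := (· ∈ c '' J)) hK
        rw [h3]
        exact ⟨j, hj, rfl⟩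
      obtain ⟨n, hn⟩ := h2
      exact ⟨n, hc (hσJ n) hj ((hσ n).trans hn)⟩
  · have h2 := (hs _ (hσJ n) i hi).2
    have h3 := (hs _ (hσJ (n + 1)) k hk).1
    rw [hσ] at h2 h3
    have h4 : Nat.nth (· ∈ c '' J) n < Nat.nth (· ∈ c '' J) (n + 1) := hmono (Nat.lt_succ_self n)
    have h5 : iv (Nat.nth (· ∈ c '' J) n + 1) ≤ iv (Nat.nth (· ∈ c '' J) (n + 1)) :=
      hiv.monotone h4
    omega

section Analysis

variable {p : Par F} {g : Om1 → ℕ → ℕ} {δ : Om1} {x : Set.Iio δ → (ℕ →₀ F) → Bool}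
  {A : Submodule F (ℕ →₀ F)}

lemma injOn_of {J : Set ℕ} {c : ℕ → ℕ} (h : ∀ j ∈ J, ∀ i < j, c i ≠ c j) : InjOn c J := by
  intro i hi j hj hij
  rcases lt_trichotomy i j with h1 | h1 | h1
  · exact absurd hij (h j hj i h1)
  · exact h1
  · exact absurd hij.symm (h i hi j h1)

lemma Par.step_block (h : p.Step g δ x A) (hJ : (p.J g δ x).Infinite) :
    ∃ (z : ℕ → (ℕ →₀ F)) (σ : ℕ → ℕ), BSeq z ∧ A = Submodule.span F (range z) ∧
      Function.Injective σ ∧ ∀ n, σ n ∈ p.J g δ x ∧ ∀ i, i ≤ σ n →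
        Good (spB δ x (p.en δ i)) (z n) := by
  obtain ⟨c, hc, h1, _⟩ := h
  have hcinj : InjOn c (p.J g δ x) := injOn_of fun j hj => (hc j hj).2
  obtain ⟨σ, hσ, hr, hb⟩ := arrange hJ c hcinj (fun j => p.dec (g δ j) (c j))
    (fun j hj => Finsupp.mem_support_iff.1 (hc j hj).1) (p.iv δ) (p.hiv δ)
    (fun j hj n hn => by
      have hj' : p.Valid δ x j (p.dec (g δ j)) := hj
      exact (hj'.2 (c j) (hc j hj).1).2 n hn)
  have hσJ : ∀ n, σ n ∈ p.J g δ x := fun n => hr ▸ ⟨n, rfl⟩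
  refine ⟨_, σ, hb, ?_, hσ, fun n => ⟨hσJ n, fun i hi => ?_⟩⟩
  · rw [h1 hJ, ← hr, ← range_comp]
    rfl
  · have hj' : p.Valid δ x (σ n) (p.dec (g δ (σ n))) := hσJ n
    exact (hj'.2 _ (hc _ (hσJ n)).1).1 i hi

lemma Par.step_split (h : p.Step g δ x A) : Split A := by
  by_cases hJ : (p.J g δ x).Infinite
  · obtain ⟨z, σ, hz, rfl, _⟩ := Par.step_block h hJ
    exact hz.split
  · obtain ⟨c, _, _, h2⟩ := h
    rw [h2 hJ]
    exact split_bot

lemma Par.step_ad (h : p.Step g δ x A) (t : ℕ ⊕ Set.Iio δ) (B : Submodule F (ℕ →₀ F))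
    (hB : ∀ e, e ∈ B ↔ spB δ x t e) : AD A B := by
  by_cases hJ : (p.J g δ x).Infinite
  · obtain ⟨z, σ, hz, rfl, hσ, hg⟩ := Par.step_block h hJ
    obtain ⟨i0, rfl⟩ := p.hen δ t
    obtain ⟨n0, hn0⟩ := Filter.eventually_atTop.1
      (hσ.nat_tendsto_atTop.eventually_ge_atTop i0)
    refine ad_of_good hz (n0 := n0) fun n hn w hw hwB => ?_
    exact (hg n).2 i0 (hn0 n hn) w hw ((hB _).1 hwB)
  · obtain ⟨c, _, _, h2⟩ := h
    rw [h2 hJ]
    exact ad_bot B

lemma Par.step_hit (h : p.Step g δ x A) (Y : Submodule F (ℕ →₀ F)) (y : (ℕ →₀ F) → Bool)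
    (hy : ∀ e, y e = true → e ∈ Y)
    (hinf : {j | j ∈ p.J g δ x ∧ InY y (p.dec (g δ j))}.Infinite) : ¬ AD Y A := by
  intro had
  have hJ : (p.J g δ x).Infinite := hinf.mono fun j hj => hj.1
  obtain ⟨c, hc, h1, _⟩ := h
  have hcinj : InjOn c (p.J g δ x) := injOn_of fun j hj => (hc j hj).2
  obtain ⟨M, hM⟩ := bdd_of_finite had
  have h2 : (c '' {j | j ∈ p.J g δ x ∧ InY y (p.dec (g δ j))}).Infinite :=
    hinf.image (hcinj.mono fun j hj => hj.1)
  obtain ⟨_, ⟨j, ⟨hj1, hj2⟩, rfl⟩, hjM⟩ := h2.exists_gt M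
  have hj' : p.Valid δ x j (p.dec (g δ j)) := hj1
  have h3 := hc j hj1
  obtain ⟨i, hi⟩ := Finsupp.support_nonempty_iff.2 (Finsupp.mem_support_iff.1 h3.1)
  have h4 := ((hj'.2 _ h3.1).2 i hi).1
  have h5 : c j ≤ p.iv δ (c j) := (p.hiv δ).le_apply
  have h6 := hM _ ⟨hy _ (hj2 _ h3.1), by
    rw [SetLike.mem_coe, h1 hJ]
    exact Submodule.subset_span ⟨j, hj1, rfl⟩⟩ i hi
  omega

end Analysis

end Pool.Agent.R475.MadB
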