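import Pool.Agent.R475.MadB.Defs

/-!
# Block sequences, good vectors
-/

set_option autoImplicit false

namespace Pool.Agent.R475.MadB

open Set

variable {F : Type} [Field F]

/-- the supports of `w` and `v` are in the natural order -/
def low (w v : ℕ →₀ F) : Prop := ∀ i ∈ w.support, ∀ k ∈ v.support, i < k

/-- a vector is good for a set -/
def Good (A : (ℕ →₀ F) → Prop) (v : ℕ →₀ F) : Prop := ∀ w, low w v → ¬ A (w + v)

/-- block sequences -/
def BSeq (x : ℕ → (ℕ →₀ F)) : Prop := (∀ n, x n ≠ 0) ∧ ∀ n, low (x n) (x (n + 1))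

lemma low.trans {a b c : ℕ →₀ F} (h1 : low a b) (h2 : low b c) (hb : b ≠ 0) : low a c := by
  obtain ⟨j, hj⟩ := Finsupp.support_nonempty_iff.2 hb
  exact fun i hi k hk => (h1 i hi j hj).trans (h2 j hj k hk)

lemma BSeq.low {x : ℕ → (ℕ →₀ F)} (h : BSeq x) {m n : ℕ} (hmn : m < n) : low (x m) (x n) := by
  induction n with
  | zero => omega
  | succ n ih =>
    rcases Nat.lt_succ_iff_lt_or_eq.1 hmn with h1 | rfl
    · exact (ih h1).trans (h.2 n) (h.1 n)
    · exact h.2 m

lemma BSeq.le {x : ℕ → (ℕ →₀ F)} (h : BSeq x) (n : ℕ) : ∀ i ∈ (x n).support, n ≤ i := by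
  induction n with
  | zero => exact fun _ _ => Nat.zero_le _
  | succ n ih =>
    intro i hi
    obtain ⟨j, hj⟩ := Finsupp.support_nonempty_iff.2 (h.1 n)
    have h1 := ih j hj
    have h2 := h.2 n j hj i hi
    omega

/-- the supports of the elements of `A` are bounded -/
def Bdd (A : Submodule F (ℕ →₀ F)) (M : ℕ) : Prop := ∀ x ∈ A, ∀ i ∈ x.support, i < M

lemma finite_of_bdd {A : Submodule F (ℕ →₀ F)} {M : ℕ} (h : Bdd A M) : FiniteDimensional F A := by
  let T : A →ₗ[F] (Fin M → F) :=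
    { toFun := fun x i => x.1 i.1
      map_add' := fun x y => rfl
      map_smul' := fun c x => rfl }
  refine Module.Finite.of_injective T ?_
  intro x y hxy
  apply Subtype.ext
  ext i
  by_cases hi : i < M
  · exact congrFun hxy ⟨i, hi⟩
  · have h1 : ∀ z : A, z.1 i = 0 := by
      intro z
      by_contra hz
      exact hi (h z.1 z.2 i (Finsupp.mem_support_iff.2 hz))
    rw [h1, h1]

lemma bdd_of_finite {A : Submodule F (ℕ →₀ F)} (h : FiniteDimensional F A) : ∃ M, Bdd A M := by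
  classical
  obtain ⟨s, hs⟩ := (Module.Finite.iff_fg.1 h : A.FG)
  refine ⟨(s.sup fun x => x.support.sup id) + 1, fun x hx => ?_⟩
  have h1 : A ≤ Finsupp.supported F F (Iio ((s.sup fun x => x.support.sup id) + 1)) := by
    rw [← hs, Submodule.span_le]
    intro y hy
    rw [SetLike.mem_coe, Finsupp.mem_supported]
    intro i hi
    rw [mem_Iio, Nat.lt_succ_iff]
    have h2 : i ≤ y.support.sup id := Finset.le_sup (f := id) hi
    exact h2.trans (Finset.le_sup (f := fun x : ℕ →₀ F => x.support.sup id) hy)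
  have h2 := (Finsupp.mem_supported _ _).1 (h1 hx)
  exact fun i hi => h2 hi

lemma exists_high {Y : Submodule F (ℕ →₀ F)} (hY : ¬ FiniteDimensional F Y) (N : ℕ) :
    ∃ v ∈ Y, v ≠ 0 ∧ ∀ i ∈ v.support, N ≤ i := by
  by_contra hc
  push Not at hc
  apply hY
  let T : Y →ₗ[F] (Fin N → F) :=
    { toFun := fun x i => x.1 i.1
      map_add' := fun x y => rfl
      map_smul' := fun c x => rfl }
  refine Module.Finite.of_injective T fun x y hxy => ?_
  by_contra hne
  obtain ⟨i, hi, hiN⟩ := hc (x.1 - y.1) (Y.sub_mem x.2 y.2)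
    (fun h => hne (Subtype.ext (sub_eq_zero.1 h)))
  apply Finsupp.mem_support_iff.1 hi
  have h1 : x.1 i = y.1 i := congrFun hxy ⟨i, hiN⟩
  rw [Finsupp.sub_apply, h1, sub_self]

/-- linear combinations -/
noncomputable def lc (x : ℕ → (ℕ →₀ F)) (a : ℕ →₀ F) : ℕ →₀ F := a.sum fun i c => c • x i

lemma mem_span_iff {x : ℕ → (ℕ →₀ F)} {y : ℕ →₀ F} :
    y ∈ Submodule.span F (range x) ↔ ∃ a, lc x a = y :=
  Finsupp.mem_span_range_iff_exists_finsupp

lemma lc_apply (x : ℕ → (ℕ →₀ F)) (a : ℕ →₀ F) (i : ℕ) :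
    lc x a i = ∑ m ∈ a.support, a m * x m i := by
  simp [lc, Finsupp.sum, Finsupp.finsetSum_apply]

lemma lc_add (x : ℕ → (ℕ →₀ F)) (a b : ℕ →₀ F) : lc x (a + b) = lc x a + lc x b :=
  Finsupp.sum_add_index' (fun _ => zero_smul _ _) (fun _ _ _ => add_smul _ _ _)

lemma BSeq.mem_support {x : ℕ → (ℕ →₀ F)} (h : BSeq x) {a : ℕ →₀ F} {i : ℕ} :
    i ∈ (lc x a).support ↔ ∃ m ∈ a.support, i ∈ (x m).support := by
  constructor
  · intro hi
    rw [Finsupp.mem_support_iff, lc_apply] at hi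
    obtain ⟨m, hm, hmi⟩ := Finset.exists_ne_zero_of_sum_ne_zero hi
    exact ⟨m, hm, Finsupp.mem_support_iff.2 (right_ne_zero_of_mul hmi)⟩
  · rintro ⟨m, hm, hi⟩
    rw [Finsupp.mem_support_iff, lc_apply, Finset.sum_eq_single m]
    · exact mul_ne_zero (Finsupp.mem_support_iff.1 hm) (Finsupp.mem_support_iff.1 hi)
    · intro l hl hlm
      have h1 : i ∉ (x l).support := by
        intro hli
        rcases lt_or_gt_of_ne hlm with h2 | h2
        · exact lt_irrefl _ (h.low h2 i hli i hi)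
        · exact lt_irrefl _ (h.low h2 i hi i hli)
      rw [Finsupp.notMem_support_iff.1 h1, mul_zero]
    · intro h1
      exact absurd hm h1

/-- splitting property of block subspaces -/
def Split (A : Submodule F (ℕ →₀ F)) : Prop :=
  ∀ P : ℕ, ∃ M : ℕ, ∀ y₁ y₂ : ℕ →₀ F, (∀ i ∈ y₁.support, i ≤ P) → (∀ i ∈ y₂.support, M ≤ i) →
    y₁ + y₂ ∈ A → y₂ ∈ A

lemma split_bot : Split (⊥ : Submodule F (ℕ →₀ F)) := by
  intro P
  refine ⟨P + 1, fun y₁ y₂ h1 h2 h => ?_⟩
  rw [Submodule.mem_bot] at h ⊢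
  ext i
  by_contra hi
  have h3 := h2 i (Finsupp.mem_support_iff.2 hi)
  have h4 : y₁ i = 0 := by
    by_contra h5
    have := h1 i (Finsupp.mem_support_iff.2 h5)
    omega
  have h5 : y₁ i + y₂ i = 0 := by rw [← Finsupp.add_apply, h]; rfl
  rw [h4, zero_add] at h5
  exact hi h5

lemma BSeq.split {x : ℕ → (ℕ →₀ F)} (h : BSeq x) : Split (Submodule.span F (range x)) := by
  classical
  intro P
  obtain ⟨M, hM⟩ := Finsupp.support_nonempty_iff.2 (h.1 (P + 1))
  have hPM : P + 1 ≤ M := h.le _ M hM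
  refine ⟨M, fun y₁ y₂ h1 h2 hy => ?_⟩
  obtain ⟨a, ha⟩ := mem_span_iff.1 hy
  have ha2 : lc x (a.filter (· ≤ P)) + lc x (a.filter (fun m => ¬ m ≤ P)) = y₁ + y₂ := by
    rw [← lc_add, Finsupp.filter_add_filter_not, ha]
  have hgap : ∀ i, P < i → i < M → i ∉ (lc x a).support := by
    intro i hi1 hi2 hi
    rw [ha, Finsupp.mem_support_iff, Finsupp.add_apply] at hi
    apply hi
    have h3 : y₁ i = 0 := by
      by_contra h5
      have := h1 i (Finsupp.mem_support_iff.2 h5)
      omega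
    have h4 : y₂ i = 0 := by
      by_contra h5
      have := h2 i (Finsupp.mem_support_iff.2 h5)
      omega
    rw [h3, h4, add_zero]
  have hz1 : ∀ i ∈ (lc x (a.filter (· ≤ P))).support, i ≤ P := by
    intro i hi
    obtain ⟨m, hm, hmi⟩ := h.mem_support.1 hi
    rw [Finsupp.support_filter, Finset.mem_filter] at hm
    have h3 : i < M := h.low (show m < P + 1 by omega) i hmi M hM
    by_contra hc
    exact hgap i (by omega) h3 (h.mem_support.2 ⟨m, hm.1, hmi⟩)
  have hz2 : ∀ i ∈ (lc x (a.filter (fun m => ¬ m ≤ P))).support, M ≤ i := by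
    intro i hi
    obtain ⟨m, hm, hmi⟩ := h.mem_support.1 hi
    rw [Finsupp.support_filter, Finset.mem_filter] at hm
    have h3 : m ≤ i := h.le m i hmi
    by_contra hc
    exact hgap i (by omega) (by omega) (h.mem_support.2 ⟨m, hm.1, hmi⟩)
  have heq : y₂ = lc x (a.filter (fun m => ¬ m ≤ P)) := by
    ext i
    have h3 := DFunLike.congr_fun ha2 i
    rw [Finsupp.add_apply, Finsupp.add_apply] at h3
    by_cases hi : i ≤ P
    · have h4 : y₂ i = 0 := by
        by_contra h5
        have := h2 i (Finsupp.mem_support_iff.2 h5)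
        omega
      have h5 : lc x (a.filter (fun m => ¬ m ≤ P)) i = 0 := by
        by_contra h5
        have := hz2 i (Finsupp.mem_support_iff.2 h5)
        omega
      rw [h4, h5]
    · have h4 : y₁ i = 0 := by
        by_contra h5
        exact hi (h1 i (Finsupp.mem_support_iff.2 h5))
      have h5 : lc x (a.filter (· ≤ P)) i = 0 := by
        by_contra h5
        exact hi (hz1 i (Finsupp.mem_support_iff.2 h5))
      rw [h4, h5, zero_add, zero_add] at h3
      exact h3.symm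
  rw [heq]
  exact mem_span_iff.2 ⟨_, rfl⟩

/-- (1) almost all members of a block sequence are good for `A` -/
lemma ad_of_good {x : ℕ → (ℕ →₀ F)} (h : BSeq x) {A : Submodule F (ℕ →₀ F)} {n0 : ℕ}
    (hg : ∀ n, n0 ≤ n → Good (· ∈ A) (x n)) : AD (Submodule.span F (range x)) A := by
  classical
  obtain ⟨M, hM⟩ := Finsupp.support_nonempty_iff.2 (h.1 n0)
  refine finite_of_bdd (M := M) ?_
  rintro y ⟨hy1, hy2⟩ i hi
  obtain ⟨a, ha⟩ := mem_span_iff.1 hy1
  have hane : a.support.Nonempty := by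
    rw [Finsupp.support_nonempty_iff]
    rintro rfl
    have h1 : y = 0 := by
      rw [← ha]; simp [lc]
    rw [h1] at hi
    simp at hi
  let n := a.support.max' hane
  have hn : n ∈ a.support := Finset.max'_mem _ _
  have hmax : ∀ m ∈ a.support, m ≤ n := fun m hm => Finset.le_max' _ _ hm
  have han : a n ≠ 0 := Finsupp.mem_support_iff.1 hn
  have hdec : lc x (a.erase n) + a n • x n = y := by
    rw [← ha]
    have h1 : a = a.erase n + Finsupp.single n (a n) := by
      rw [add_comm, Finsupp.single_add_erase]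
    conv_rhs => rw [h1, lc_add]
    congr 1
    simp [lc, Finsupp.sum_single_index]
  have hnn : n < n0 := by
    by_contra hc
    push Not at hc
    apply hg n hc ((a n)⁻¹ • lc x (a.erase n))
    · intro i hi k hk
      have h1 : i ∈ (lc x (a.erase n)).support := Finsupp.support_smul hi
      obtain ⟨m, hm, hmi⟩ := h.mem_support.1 h1
      rw [Finsupp.support_erase, Finset.mem_erase] at hm
      exact h.low (lt_of_le_of_ne (hmax m hm.2) hm.1) i hmi k hk
    · have h1 : (a n)⁻¹ • lc x (a.erase n) + x n = (a n)⁻¹ • y := by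
        rw [← hdec, smul_add, smul_smul, inv_mul_cancel₀ han, one_smul]
      rw [h1]
      exact A.smul_mem _ hy2
  rw [← ha] at hi
  obtain ⟨m, hm, hmi⟩ := h.mem_support.1 hi
  exact h.low ((hmax m hm).trans_lt hnn) i hmi M hM

/-- (2) good vectors in a subspace -/
lemma exists_good {Y : Submodule F (ℕ →₀ F)} (hY : ¬ FiniteDimensional F Y) {ι : Type}
    (s : Finset ι) (A : ι → Submodule F (ℕ →₀ F)) (hs : ∀ t ∈ s, Split (A t))
    (had : ∀ t ∈ s, AD Y (A t)) (N : ℕ) :
    ∃ v ∈ Y, v ≠ 0 ∧ (∀ i ∈ v.support, N ≤ i) ∧ ∀ t ∈ s, Good (· ∈ A t) v := by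
  classical
  have h1 : ∀ t : ι, ∃ M, t ∈ s → Bdd (Y ⊓ A t) M := by
    intro t
    by_cases ht : t ∈ s
    · obtain ⟨M, hM⟩ := bdd_of_finite (had t ht)
      exact ⟨M, fun _ => hM⟩
    · exact ⟨0, fun h => absurd h ht⟩
  choose B hB using h1
  obtain ⟨v₁, hv1, hv1ne, hv1N⟩ := exists_high hY N
  obtain ⟨P, hP⟩ : ∃ P, ∀ i ∈ v₁.support, i ≤ P := ⟨v₁.support.sup id,
    fun i hi => Finset.le_sup (f := id) hi⟩
  have h2 : ∀ t : ι, ∃ M, t ∈ s → ∀ y₁ y₂ : ℕ →₀ F, (∀ i ∈ y₁.support, i ≤ P) →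
      (∀ i ∈ y₂.support, M ≤ i) → y₁ + y₂ ∈ A t → y₂ ∈ A t := by
    intro t
    by_cases ht : t ∈ s
    · obtain ⟨M, hM⟩ := hs t ht P
      exact ⟨M, fun _ => hM⟩
    · exact ⟨0, fun h => absurd h ht⟩
  choose M hM using h2
  obtain ⟨v₂, hv2, hv2ne, hv2N⟩ := exists_high hY (max (max N (P + 1)) (max (s.sup B) (s.sup M)))
  have hv2N1 : ∀ i ∈ v₂.support, N ≤ i := fun i hi => by have := hv2N i hi; omega
  have hv2P : ∀ i ∈ v₂.support, P < i := fun i hi => by have := hv2N i hi; omega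
  have hv1supp : ∀ i ∈ v₁.support, i ∈ (v₁ + v₂).support := by
    intro i hi
    rw [Finsupp.mem_support_iff, Finsupp.add_apply]
    have h3 : v₂ i = 0 := by
      by_contra h4
      have h5 := hv2P i (Finsupp.mem_support_iff.2 h4)
      have h6 := hP i hi
      omega
    rw [h3, add_zero]
    exact Finsupp.mem_support_iff.1 hi
  obtain ⟨i1, hi1⟩ := Finsupp.support_nonempty_iff.2 hv1ne
  refine ⟨v₁ + v₂, Y.add_mem hv1 hv2, ?_, ?_, ?_⟩
  · rw [← Finsupp.support_nonempty_iff]
    exact ⟨i1, hv1supp i1 hi1⟩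
  · intro i hi
    rcases Finset.mem_union.1 (Finsupp.support_add hi) with h3 | h3
    · exact hv1N i h3
    · exact hv2N1 i h3
  · intro t ht w hw hA
    have hwP : ∀ i ∈ w.support, i ≤ P := by
      intro i hi
      exact (hw i hi i1 (hv1supp i1 hi1)).le.trans (hP i1 hi1)
    have h3 : v₂ ∈ A t := by
      refine hM t ht (w + v₁) v₂ ?_ ?_ ?_
      · intro i hi
        rcases Finset.mem_union.1 (Finsupp.support_add hi) with h3 | h3
        · exact hwP i h3
        · exact hP i h3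
      · intro i hi
        have h4 := hv2N i hi
        have h5 : M t ≤ s.sup M := Finset.le_sup ht
        omega
      · rw [add_assoc]; exact hA
    obtain ⟨k, hk⟩ := Finsupp.support_nonempty_iff.2 hv2ne
    have h4 := hB t ht v₂ ⟨hv2, h3⟩ k hk
    have h5 := hv2N k hk
    have h6 : B t ≤ s.sup B := Finset.le_sup ht
    omega

/-- the spans of block sequences have infinite dimension -/
lemma BSeq.infinite {x : ℕ → (ℕ →₀ F)} (h : BSeq x) :
    ¬ FiniteDimensional F (Submodule.span F (range x)) := by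
  intro hf
  obtain ⟨M, hM⟩ := bdd_of_finite hf
  obtain ⟨i, hi⟩ := Finsupp.support_nonempty_iff.2 (h.1 M)
  have h1 := hM (x M) (Submodule.subset_span ⟨M, rfl⟩) i hi
  have h2 := h.le M i hi
  omega

lemma finite_sup_inf {A B S : Submodule F (ℕ →₀ F)} (hS : FiniteDimensional F S)
    (h : FiniteDimensional F ↥(B ⊓ A)) : FiniteDimensional F ↥((A ⊔ S) ⊓ B) := by
  have h1 : ((A ⊔ S) ⊓ B).FG := by
    refine Submodule.fg_of_fg_map_of_fg_inf_ker A.mkQ ?_ ?_
    · have hSf : (S.map A.mkQ).FG := (Module.Finite.iff_fg.1 hS : S.FG).map _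
      have h2 : ((A ⊔ S) ⊓ B).map A.mkQ ≤ S.map A.mkQ := by
        refine (Submodule.map_mono inf_le_left).trans ?_
        rw [Submodule.map_sup]
        refine sup_le ?_ le_rfl
        rintro _ ⟨a, ha, rfl⟩
        have h3 : A.mkQ a = 0 := by simpa using ha
        rw [h3]
        exact Submodule.zero_mem _
      have : FiniteDimensional F ↥(S.map A.mkQ) := Module.Finite.iff_fg.2 hSf
      have h4 : FiniteDimensional F ↥(((A ⊔ S) ⊓ B).map A.mkQ) :=
        Submodule.finiteDimensional_of_le h2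
      exact Module.Finite.iff_fg.1 h4
    · rw [Submodule.ker_mkQ]
      have h2 : (A ⊔ S) ⊓ B ⊓ A ≤ B ⊓ A := inf_le_inf_right _ inf_le_right
      have h4 : FiniteDimensional F ↥((A ⊔ S) ⊓ B ⊓ A) := Submodule.finiteDimensional_of_le h2
      exact Module.Finite.iff_fg.1 h4
  exact Module.Finite.iff_fg.2 h1

end Pool.Agent.R475.MadB
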